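import Pool.Agent.H74.GSq.Ext

/-! The alternating trace theorem: the first extension module of a module of finite length over a
polynomial ring in `h` variables needs at least `h` generators. -/

namespace Pool.Agent.H74.GSq

open MvPolynomial TensorProduct ExteriorAlgebra

variable {k : Type*} [Field k] {h : ℕ} {V : Type*} [AddCommGroup V] [Module k V]
  [Module (MvPolynomial (Fin h) k) V] [IsScalarTower k (MvPolynomial (Fin h) k) V]

omit [Module (MvPolynomial (Fin h) k) V] [IsScalarTower k (MvPolynomial (Fin h) k) V] in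
theorem oneForm_add (Y Z : Fin h → Module.End k V) :
    oneForm k h V (Y + Z) = oneForm k h V Y + oneForm k h V Z := by
  simp only [oneForm, Pi.add_apply, TensorProduct.tmul_add, Finset.sum_add_distrib]

theorem scal_oneForm (c : MvPolynomial (Fin h) k) (Y : Fin h → Module.End k V) :
    scal k h V c * oneForm k h V Y = oneForm k h V (fun l => rho k h V c * Y l) := by
  rw [oneForm, oneForm, Finset.mul_sum]
  refine Finset.sum_congr rfl (fun l _ => ?_)
  rw [scal_apply, Algebra.TensorProduct.tmul_mul_tmul, one_mul]

omit [Module (MvPolynomial (Fin h) k) V] [IsScalarTower k (MvPolynomial (Fin h) k) V] in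
theorem oneForm_single (i : Fin h) :
    oneForm k h V (fun l => if l = i then 1 else 0) = ee k h i ⊗ₜ[k] (1 : Module.End k V) := by
  rw [oneForm, Finset.sum_eq_single i]
  · rw [if_pos rfl]
  · intro b _ hb
    rw [if_neg hb, TensorProduct.tmul_zero]
  · intro hi
    exact absurd (Finset.mem_univ i) hi

theorem dd_one_tmul (Z : Module.End k V) :
    dd (PP k h V) (qq k h V) (1 ⊗ₜ[k] Z) =
      oneForm k h V (fun l => rho k h V (X l) * Z - Z * rho k h V (X l)) := by
  rw [dd, PP_tmul, map_one, qq, oneForm, oneForm, Finset.sum_mul, Finset.mul_sum,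
    ← Finset.sum_sub_distrib]
  refine Finset.sum_congr rfl (fun l _ => ?_)
  simp only [Algebra.TensorProduct.tmul_mul_tmul, mul_one, one_mul]
  rw [← TensorProduct.tmul_sub]

theorem isCocycle_single (i : Fin h) :
    IsCocycle (k := k) (h := h) (V := V) (fun l => if l = i then 1 else 0) := by
  intro l m
  dsimp only
  split_ifs <;> simp

omit [Module (MvPolynomial (Fin h) k) V] [IsScalarTower k (MvPolynomial (Fin h) k) V] in
theorem prod_xi (n : ℕ) (v : Fin n → Fin h) :
    (List.ofFn fun i => ee k h (v i) ⊗ₜ[k] (1 : Module.End k V)).prod =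
      ιMulti k n (fun i => (Pi.single (v i) 1 : Fin h → k)) ⊗ₜ[k] (1 : Module.End k V) := by
  rw [ιMulti_apply]
  induction n with
  | zero =>
    simp only [List.ofFn_zero, List.prod_nil]
    rfl
  | succ n ih =>
    rw [List.ofFn_succ, List.prod_cons, List.ofFn_succ, List.prod_cons, ih (fun i => v i.succ),
      Algebra.TensorProduct.tmul_mul_tmul, one_mul]
    rfl

theorem trace_obstruction [Module.Finite k V] {r : ℕ} (hr : r < h)
    (Y : Fin r → Fin h → Module.End k V) (hY : ∀ j, IsCocycle (Y j))
    (c : Fin h → Fin r → MvPolynomial (Fin h) k) (Z : Fin h → Module.End k V)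
    (hZ : ∀ i l, (if l = i then (1 : Module.End k V) else 0) =
      ∑ j, rho k h V (c i j) * Y j l - (rho k h V (X l) * Z i - Z i * rho k h V (X l))) :
    ((h.factorial * Module.finrank k V : ℕ) : k) = 0 := by
  classical
  obtain ⟨U, hU⟩ := alt_exact (J := PP k h V) (q := qq k h V) (scal k h V) (PP_PP k h V)
    (PP_qq k h V) (PP_scal k h V) (qq_scal k h V) hr (fun j => oneForm k h V (Y j))
    (fun j => oneForm_mem (Y j) (hY j)) (fun i => oneForm k h V (fun l => if l = i then 1 else 0))
    (fun i => oneForm_mem _ (isCocycle_single i)) c (fun i => by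
      refine ⟨-(1 ⊗ₜ[k] Z i), ?_⟩
      rw [dd_neg, dd_one_tmul, Finset.sum_congr rfl (fun j _ => scal_oneForm (c i j) (Y j)),
        eq_neg_iff_add_eq_zero, sub_add_eq_add_sub, sub_eq_zero, ← oneForm_add]
      simp only [oneForm]
      rw [Finset.sum_comm]
      refine Finset.sum_congr rfl (fun l _ => ?_)
      rw [← TensorProduct.tmul_sum]
      congr 1
      rw [Pi.add_apply, hZ i l]
      abel)
  have h1 := congrArg (tau k h V) hU
  rw [tau_dd, map_sum] at h1
  simp only [oneForm_single] at h1
  have h2 : ∀ s : Equiv.Perm (Fin h), tau k h V ((Equiv.Perm.sign s) •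
      (List.ofFn fun i => ee k h (s i) ⊗ₜ[k] (1 : Module.End k V)).prod) =
      (Module.finrank k V : k) := by
    intro s
    rw [Units.smul_def, map_zsmul, prod_xi, tau_tmul]
    have h3 : (fun i => (Pi.single (s i) 1 : Fin h → k)) =
        (fun i => (Pi.single i 1 : Fin h → k)) ∘ s := rfl
    rw [h3, AlternatingMap.map_perm, Units.smul_def, map_zsmul, topc_ιMulti]
    have h4 : Matrix.det (fun i => (Pi.single i 1 : Fin h → k)) = 1 := by
      have : (fun i => (Pi.single i 1 : Fin h → k)) = (1 : Matrix (Fin h) (Fin h) k) := by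
        funext i j
        rw [Matrix.one_apply, Pi.single_apply]
        simp [eq_comm]
      rw [this, Matrix.det_one]
    rw [h4, LinearMap.trace_one, smul_mul_assoc, one_mul, smul_smul, ← Units.val_mul,
      Int.units_mul_self]
    simp
  rw [Finset.sum_congr rfl (fun s _ => h2 s), Finset.sum_const, Finset.card_univ,
    Fintype.card_perm, Fintype.card_fin, nsmul_eq_mul] at h1
  rw [Nat.cast_mul]
  exact h1

end Pool.Agent.H74.GSq
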