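import Pool.Agent.H6.CMT.Main
import Pool.Agent.H74.GSq.Trace

/-! Duality for Artinian quotients of a polynomial ring: the dual of `S/L` is generated by
`dim Soc(S/L)` functionals. -/

namespace Pool.Agent.H74.GSq

open MvPolynomial Pool.Agent.H6.CMT

variable {k : Type*} [Field k] {h : ℕ}

theorem exists_soc (L : Ideal (MvPolynomial (Fin h) k)) (n : ℕ) :
    ∀ x : MvPolynomial (Fin h) k ⧸ L, x ≠ 0 → (∀ s ∈ irr k h ^ n, s • x = 0) →
      ∃ s : MvPolynomial (Fin h) k, s • x ∈ soc L ∧ s • x ≠ 0 := by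
  induction n with
  | zero =>
    intro x hx hn
    exfalso
    apply hx
    have := hn 1 (by simp)
    rwa [one_smul] at this
  | succ n ih =>
    intro x hx hn
    by_cases hs : ∀ i : Fin h, (X i : MvPolynomial (Fin h) k) • x = 0
    · exact ⟨1, by rw [one_smul]; exact hs, by rwa [one_smul]⟩
    · push Not at hs
      obtain ⟨i, hi⟩ := hs
      obtain ⟨s, hs1, hs2⟩ := ih ((X i : MvPolynomial (Fin h) k) • x) hi (fun s hs => by
        rw [smul_smul]
        apply hn
        rw [pow_succ]
        exact Ideal.mul_mem_mul hs (X_mem_irr i))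
      exact ⟨s * X i, by rwa [mul_smul], by rwa [mul_smul]⟩

theorem dual_generated (L : Ideal (MvPolynomial (Fin h) k)) (c : ℕ) (hc : irr k h ^ c ≤ L)
    (t : ℕ) (ht : cmType L = t) :
    ∃ ψ : Fin t → Module.Dual k (MvPolynomial (Fin h) k ⧸ L),
      ∀ φ : Module.Dual k (MvPolynomial (Fin h) k ⧸ L),
        ∃ a : Fin t → MvPolynomial (Fin h) k, ∀ x, φ x = ∑ j, ψ j (a j • x) := by
  classical
  have fin : Module.Finite k (MvPolynomial (Fin h) k ⧸ L) := finite_quot L c hc
  have hr : Module.finrank k (soc L) = t := (cmType_eq L).symm.trans ht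
  let b := Module.finBasisOfFinrankEq k (soc L) hr
  have hext : ∀ j, ∃ ψ : Module.Dual k (MvPolynomial (Fin h) k ⧸ L),
      ψ ∘ₗ (soc L).subtype = b.coord j := fun j => LinearMap.exists_extend _
  choose ψ hψ using hext
  refine ⟨ψ, ?_⟩
  let Θ : (Fin t → MvPolynomial (Fin h) k) →ₗ[k]
      Module.Dual k (MvPolynomial (Fin h) k ⧸ L) :=
    { toFun := fun a => ∑ j, ψ j ∘ₗ (Algebra.lsmul k k (MvPolynomial (Fin h) k ⧸ L) (a j))
      map_add' := by
        intro a a'
        rw [← Finset.sum_add_distrib]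
        refine Finset.sum_congr rfl (fun j _ => ?_)
        rw [Pi.add_apply, map_add, LinearMap.comp_add]
      map_smul' := by
        intro r a
        rw [RingHom.id_apply, Finset.smul_sum]
        refine Finset.sum_congr rfl (fun j _ => ?_)
        rw [Pi.smul_apply, map_smul, LinearMap.comp_smul] }
  have hΘ : ∀ a x, Θ a x = ∑ j, ψ j (a j • x) := by
    intro a x
    change (∑ j, ψ j ∘ₗ (Algebra.lsmul k k (MvPolynomial (Fin h) k ⧸ L) (a j))) x = _
    rw [LinearMap.sum_apply]
    rfl
  have htop : LinearMap.range Θ = ⊤ := by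
    have hco : (LinearMap.range Θ).dualCoannihilator = ⊥ := by
      rw [Submodule.eq_bot_iff]
      intro x hx
      by_contra hne
      rw [Submodule.mem_dualCoannihilator] at hx
      obtain ⟨s, hs1, hs2⟩ := exists_soc L c x hne (fun s hs => by
        obtain ⟨y, rfl⟩ := Submodule.Quotient.mk_surjective _ x
        rw [← Submodule.Quotient.mk_smul, Submodule.Quotient.mk_eq_zero]
        exact L.mul_mem_right _ (hc hs))
      apply hs2
      have h0 : ∀ j, b.coord j ⟨s • x, hs1⟩ = 0 := by
        intro j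
        rw [← hψ j]
        change ψ j (s • x) = 0
        have h1 := hx (Θ (Pi.single j s)) ⟨_, rfl⟩
        rw [hΘ, Finset.sum_eq_single j] at h1
        · rwa [Pi.single_eq_same] at h1
        · intro i _ hij
          rw [Pi.single_eq_of_ne hij, zero_smul, map_zero]
        · intro hj
          exact absurd (Finset.mem_univ j) hj
      have h2 : (⟨s • x, hs1⟩ : soc L) = 0 := by
        apply b.ext_elem
        intro j
        have := h0 j
        rw [Module.Basis.coord_apply] at this
        rw [this, map_zero]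
        rfl
      exact congrArg Subtype.val h2
    have h1 := Subspace.finrank_add_finrank_dualCoannihilator_eq (LinearMap.range Θ)
    rw [hco, finrank_bot, add_zero] at h1
    exact Submodule.eq_top_of_finrank_eq (h1.trans Subspace.dual_finrank_eq.symm)
  intro φ
  have : φ ∈ LinearMap.range Θ := by rw [htop]; trivial
  obtain ⟨a, ha⟩ := this
  exact ⟨a, fun x => by rw [← ha, hΘ]⟩

theorem gor_functional (I : Ideal (MvPolynomial (Fin h) k)) (c : ℕ) (hc : irr k h ^ c ≤ I)
    (hG : cmType I = 1) :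
    ∃ μ : Module.Dual k (MvPolynomial (Fin h) k ⧸ I),
      (∀ φ : Module.Dual k (MvPolynomial (Fin h) k ⧸ I),
        ∃ a : MvPolynomial (Fin h) k, ∀ x, φ x = μ (a • x)) ∧
      (∀ x, (∀ s : MvPolynomial (Fin h) k, μ (s • x) = 0) → x = 0) := by
  obtain ⟨ψ, hψ⟩ := dual_generated I c hc 1 hG
  have h1 : ∀ φ : Module.Dual k (MvPolynomial (Fin h) k ⧸ I),
      ∃ a : MvPolynomial (Fin h) k, ∀ x, φ x = ψ 0 (a • x) := by
    intro φ
    obtain ⟨a, ha⟩ := hψ φ
    refine ⟨a 0, fun x => ?_⟩
    rw [ha x, Fin.sum_univ_one]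
  refine ⟨ψ 0, h1, fun x hx => ?_⟩
  rw [← Module.forall_dual_apply_eq_zero_iff k x]
  intro φ
  obtain ⟨a, ha⟩ := h1 φ
  rw [ha x, hx a]

/-- a functional on `S/I²` gives an `S`-linear map `I → S/I` (extended `k`-linearly to `S`) -/
theorem exists_hom (I : Ideal (MvPolynomial (Fin h) k))
    (μ : Module.Dual k (MvPolynomial (Fin h) k ⧸ I))
    (h1 : ∀ φ : Module.Dual k (MvPolynomial (Fin h) k ⧸ I),
        ∃ a : MvPolynomial (Fin h) k, ∀ x, φ x = μ (a • x))
    (h2 : ∀ x, (∀ s : MvPolynomial (Fin h) k, μ (s • x) = 0) → x = 0)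
    (ψ : Module.Dual k (MvPolynomial (Fin h) k ⧸ (I * I))) :
    ∃ g : MvPolynomial (Fin h) k →ₗ[k] (MvPolynomial (Fin h) k ⧸ I),
      ∀ f ∈ I, ∀ s : MvPolynomial (Fin h) k,
        μ (s • g f) = ψ (Submodule.Quotient.mk (s * f)) ∧ g (s * f) = s • g f := by
  classical
  have hex : ∀ f : (I.restrictScalars k : Submodule k (MvPolynomial (Fin h) k)),
      ∃ y : MvPolynomial (Fin h) k ⧸ I, ∀ s : MvPolynomial (Fin h) k,
      μ (s • y) = ψ (Submodule.Quotient.mk (s * (f : MvPolynomial (Fin h) k))) := by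
    intro f
    have hf : (f : MvPolynomial (Fin h) k) ∈ I := f.2
    let χ : MvPolynomial (Fin h) k →ₗ[k] k :=
      ψ ∘ₗ ((I * I).mkQ.restrictScalars k) ∘ₗ (LinearMap.mulRight k (f : MvPolynomial (Fin h) k))
    have hχ : I.restrictScalars k ≤ LinearMap.ker χ := by
      intro u hu
      rw [LinearMap.mem_ker]
      change ψ (Submodule.Quotient.mk (u * f)) = 0
      rw [(Submodule.Quotient.mk_eq_zero (I * I)).2 (Ideal.mul_mem_mul hu hf), map_zero]
    obtain ⟨a, ha⟩ := h1 ((I.restrictScalars k).liftQ χ hχ)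
    refine ⟨Submodule.Quotient.mk a, fun s => ?_⟩
    have h3 := ha (Submodule.Quotient.mk s)
    rw [← Submodule.Quotient.mk_smul, smul_eq_mul, mul_comm a s] at h3
    rw [← Submodule.Quotient.mk_smul, smul_eq_mul, ← h3]
    rfl
  choose y hy using hex
  have hadd : ∀ f f' : (I.restrictScalars k : Submodule k (MvPolynomial (Fin h) k)),
      y (f + f') = y f + y f' := by
    intro f f'
    rw [← sub_eq_zero]
    apply h2
    intro s
    rw [smul_sub, smul_add, map_sub, map_add, hy, hy, hy, ← map_add, ← map_sub,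
      ← Submodule.Quotient.mk_add, ← Submodule.Quotient.mk_sub]
    have : s * ((f + f' : I.restrictScalars k) : MvPolynomial (Fin h) k) -
        (s * (f : MvPolynomial (Fin h) k) + s * (f' : MvPolynomial (Fin h) k)) = 0 := by
      push_cast
      ring
    rw [this]
    simp
  have hsm : ∀ (r : k) (f : (I.restrictScalars k : Submodule k (MvPolynomial (Fin h) k))),
      y (r • f) = r • y f := by
    intro r f
    rw [← sub_eq_zero]
    apply h2
    intro s
    have h5 : μ (s • r • y f) = r • μ (s • y f) := by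
      rw [smul_comm s r (y f)]
      exact map_smul μ r _
    rw [smul_sub, map_sub, h5, hy, hy]
    have h6 : r • ψ (Submodule.Quotient.mk (s * (f : MvPolynomial (Fin h) k))) =
        ψ (Submodule.Quotient.mk (r • (s * (f : MvPolynomial (Fin h) k)))) :=
      (map_smul ψ r _).symm
    rw [h6, ← map_sub, ← Submodule.Quotient.mk_sub]
    have : s * ((r • f : I.restrictScalars k) : MvPolynomial (Fin h) k) -
        r • (s * (f : MvPolynomial (Fin h) k)) = 0 := by
      push_cast
      rw [mul_smul_comm, sub_self]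
    rw [this]
    simp
  let g0 : (I.restrictScalars k : Submodule k (MvPolynomial (Fin h) k)) →ₗ[k]
      (MvPolynomial (Fin h) k ⧸ I) :=
    { toFun := y
      map_add' := hadd
      map_smul' := hsm }
  obtain ⟨g, hg⟩ := LinearMap.exists_extend g0
  have h3 : ∀ (f : MvPolynomial (Fin h) k), f ∈ I → ∀ s : MvPolynomial (Fin h) k,
      μ (s • g f) = ψ (Submodule.Quotient.mk (s * f)) := by
    intro f hf s
    have h4 : g f = y ⟨f, hf⟩ := LinearMap.congr_fun hg ⟨f, hf⟩
    rw [h4]
    exact hy ⟨f, hf⟩ s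
  refine ⟨g, fun f hf s => ⟨h3 f hf s, ?_⟩⟩
  rw [← sub_eq_zero]
  apply h2
  intro u
  rw [smul_sub, map_sub, h3 _ (I.mul_mem_left s hf) u, smul_smul, h3 f hf (u * s), mul_assoc,
    sub_self]

end Pool.Agent.H74.GSq
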