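import Pool.Agent.H74.GSq.Super

/-! The exterior algebra with coefficients in the endomorphisms of a module over a polynomial
ring: supertrace and cocycles. -/

namespace Pool.Agent.H74.GSq

open MvPolynomial TensorProduct ExteriorAlgebra

theorem neg_aux {R : Type*} [Ring R] (q w : R) (hw : q * w + w * q = 0) : q * w = -w * q := by
  rw [neg_mul]
  exact eq_neg_of_add_eq_zero_left hw

theorem comm_aux {R : Type*} [Ring R] (w p x : R) :
    w * (p * x) - p * x * w = (w * p - p * w) * x + p * (w * x - x * w) := by
  noncomm_ring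

theorem comm_aux' {R : Type*} [Ring R] (w p r : R) :
    w * (p + r) - (p + r) * w = (w * p - p * w) + (w * r - r * w) := by
  noncomm_ring

variable (k : Type*) [Field k] (h : ℕ)

/-- the exterior algebra of `k^h` -/
abbrev AA := ExteriorAlgebra k (Fin h → k)

/-- basis vector as an element of the exterior algebra -/
noncomputable def ee (l : Fin h) : AA k h := ι k (Pi.single l 1)

/-- the parity automorphism -/
noncomputable def par : AA k h →ₐ[k] AA k h := CliffordAlgebra.involute

theorem par_ι (m : Fin h → k) : par k h (ι k m) = -ι k m := CliffordAlgebra.involute_ι m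

theorem par_par (a : AA k h) : par k h (par k h a) = a := CliffordAlgebra.involute_involute a

theorem ι_swap (m : Fin h → k) (a : AA k h) : ι k m * a = par k h a * ι k m := by
  induction a using ExteriorAlgebra.induction with
  | algebraMap r => rw [AlgHom.commutes]; exact (Algebra.commutes r _).symm
  | ι x =>
    rw [par_ι, neg_mul]
    exact eq_neg_of_add_eq_zero_left (ι_add_mul_swap m x)
  | mul a b ha hb => rw [map_mul, ← mul_assoc, ha, mul_assoc, hb, mul_assoc]
  | add a b ha hb => rw [map_add, mul_add, add_mul, ha, hb]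

theorem ee_mul_self (l : Fin h) : ee k h l * ee k h l = 0 := ι_sq_zero _

theorem ee_swap (l m : Fin h) : ee k h l * ee k h m + ee k h m * ee k h l = 0 :=
  ι_add_mul_swap _ _

/-- the coefficient of the top degree -/
noncomputable def topc : AA k h →ₗ[k] k :=
  liftAlternating (R := k) (M := Fin h → k) (N := k)
    (Pi.single (M := fun i => (Fin h → k) [⋀^Fin i]→ₗ[k] k) h Matrix.detRowAlternating)

theorem topc_ιMulti (v : Fin h → Fin h → k) : topc k h (ιMulti k h v) = Matrix.det v := by
  rw [topc, liftAlternating_apply_ιMulti, Pi.single_eq_same]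
  rfl

variable (V : Type*) [AddCommGroup V] [Module k V] [Module (MvPolynomial (Fin h) k) V]
  [IsScalarTower k (MvPolynomial (Fin h) k) V]

/-- the action of polynomials -/
noncomputable def rho : MvPolynomial (Fin h) k →ₐ[k] Module.End k V := Algebra.lsmul k k V

theorem rho_apply (c : MvPolynomial (Fin h) k) (v : V) : rho k h V c v = c • v := rfl

theorem rho_comm (c d : MvPolynomial (Fin h) k) :
    rho k h V c * rho k h V d = rho k h V d * rho k h V c := by
  rw [← map_mul, mul_comm, map_mul]

/-- exterior algebra with coefficients in `End V` -/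
abbrev OO := AA k h ⊗[k] Module.End k V

/-- parity automorphism -/
noncomputable def PP : OO k h V →ₐ[k] OO k h V :=
  Algebra.TensorProduct.map (par k h) (AlgHom.id k _)

/-- one-forms -/
noncomputable def oneForm (Y : Fin h → Module.End k V) : OO k h V := ∑ l, ee k h l ⊗ₜ[k] Y l

/-- the differential -/
noncomputable def qq : OO k h V := oneForm k h V (fun l => rho k h V (X l))

/-- scalars -/
noncomputable def scal : MvPolynomial (Fin h) k →ₐ[k] OO k h V :=
  Algebra.TensorProduct.includeRight.comp (rho k h V)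

theorem scal_apply (c : MvPolynomial (Fin h) k) : scal k h V c = 1 ⊗ₜ[k] rho k h V c := rfl

/-- the trace of the top coefficient -/
noncomputable def tau : OO k h V →ₗ[k] k :=
  LinearMap.mul' k k ∘ₗ TensorProduct.map (topc k h) (LinearMap.trace k V)

omit [Module (MvPolynomial (Fin h) k) V] [IsScalarTower k (MvPolynomial (Fin h) k) V] in
theorem tau_tmul (a : AA k h) (Z : Module.End k V) :
    tau k h V (a ⊗ₜ[k] Z) = topc k h a * LinearMap.trace k V Z := by
  simp [tau]

omit [Module (MvPolynomial (Fin h) k) V] [IsScalarTower k (MvPolynomial (Fin h) k) V] in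
theorem PP_tmul (a : AA k h) (Z : Module.End k V) :
    PP k h V (a ⊗ₜ[k] Z) = par k h a ⊗ₜ[k] Z := by
  simp [PP]

omit [Module (MvPolynomial (Fin h) k) V] [IsScalarTower k (MvPolynomial (Fin h) k) V] in
theorem PP_PP (x : OO k h V) : PP k h V (PP k h V x) = x := by
  induction x using TensorProduct.induction_on with
  | zero => simp
  | tmul a Z => rw [PP_tmul, PP_tmul, par_par]
  | add x y hx hy => rw [map_add, map_add, hx, hy]

omit [Module (MvPolynomial (Fin h) k) V] [IsScalarTower k (MvPolynomial (Fin h) k) V] in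
theorem PP_oneForm (Y : Fin h → Module.End k V) :
    PP k h V (oneForm k h V Y) = -oneForm k h V Y := by
  rw [oneForm, map_sum, ← Finset.sum_neg_distrib]
  refine Finset.sum_congr rfl (fun l _ => ?_)
  rw [PP_tmul, ee, par_ι, TensorProduct.neg_tmul]

theorem PP_qq : PP k h V (qq k h V) = -qq k h V := PP_oneForm k h V _

theorem PP_scal (c : MvPolynomial (Fin h) k) : PP k h V (scal k h V c) = scal k h V c := by
  rw [scal_apply, PP_tmul, map_one]

theorem qq_scal (c : MvPolynomial (Fin h) k) :
    qq k h V * scal k h V c = scal k h V c * qq k h V := by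
  rw [qq, oneForm, Finset.sum_mul, Finset.mul_sum]
  refine Finset.sum_congr rfl (fun l _ => ?_)
  rw [scal_apply, Algebra.TensorProduct.tmul_mul_tmul, Algebra.TensorProduct.tmul_mul_tmul,
    mul_one, one_mul, rho_comm]

theorem tau_qq (U : OO k h V) : tau k h V (qq k h V * U) = tau k h V (PP k h V U * qq k h V) := by
  induction U using TensorProduct.induction_on with
  | zero => simp
  | tmul a Z =>
    rw [PP_tmul, qq, oneForm, Finset.sum_mul, Finset.mul_sum, map_sum, map_sum]
    refine Finset.sum_congr rfl (fun l _ => ?_)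
    rw [Algebra.TensorProduct.tmul_mul_tmul, Algebra.TensorProduct.tmul_mul_tmul, tau_tmul,
      tau_tmul, LinearMap.trace_mul_comm, ee, ι_swap]
  | add x y hx hy => rw [map_add, mul_add, add_mul, map_add, map_add, hx, hy]

theorem tau_dd (U : OO k h V) : tau k h V (dd (PP k h V) (qq k h V) U) = 0 := by
  rw [dd, map_sub, tau_qq, sub_self]

variable {k h V}

/-- the cocycle condition -/
def IsCocycle (Y : Fin h → Module.End k V) : Prop :=
  ∀ l m, rho k h V (X l) * Y m - Y m * rho k h V (X l) =
    rho k h V (X m) * Y l - Y l * rho k h V (X m)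

theorem oneForm_closed (Y : Fin h → Module.End k V) (hY : IsCocycle Y) :
    qq k h V * oneForm k h V Y = PP k h V (oneForm k h V Y) * qq k h V := by
  rw [PP_oneForm]
  refine neg_aux _ _ ?_
  have h1 : qq k h V * oneForm k h V Y = ∑ p : Fin h × Fin h,
      (ee k h p.1 * ee k h p.2) ⊗ₜ[k] (rho k h V (X p.1) * Y p.2) := by
    rw [qq, oneForm, oneForm, Finset.sum_mul_sum, ← Finset.univ_product_univ,
      Finset.sum_product]
    simp only [Algebra.TensorProduct.tmul_mul_tmul]
  have h2 : oneForm k h V Y * qq k h V = ∑ p : Fin h × Fin h,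
      -((ee k h p.1 * ee k h p.2) ⊗ₜ[k] (Y p.2 * rho k h V (X p.1))) := by
    rw [qq, oneForm, oneForm, Finset.sum_mul_sum, Finset.sum_comm, ← Finset.univ_product_univ,
      Finset.sum_product]
    refine Finset.sum_congr rfl (fun l _ => Finset.sum_congr rfl (fun m _ => ?_))
    rw [Algebra.TensorProduct.tmul_mul_tmul, ← TensorProduct.neg_tmul]
    congr 1
    exact eq_neg_of_add_eq_zero_left (ee_swap k h m l)
  rw [h1, h2, ← Finset.sum_add_distrib]
  refine Finset.sum_involution (fun p _ => p.swap) ?_ ?_ (fun _ _ => Finset.mem_univ _)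
    (fun _ _ => Prod.swap_swap _)
  · intro p _
    have h3 : ∀ (x y : Module.End k V) (a : AA k h),
        a ⊗ₜ[k] x + -(a ⊗ₜ[k] y) = a ⊗ₜ[k] (x - y) := by
      intro x y a
      rw [TensorProduct.tmul_sub, sub_eq_add_neg]
    rw [h3, h3, Prod.fst_swap, Prod.snd_swap, hY p.2 p.1, ← TensorProduct.add_tmul, ee_swap,
      TensorProduct.zero_tmul]
  · intro p _ hne heq
    apply hne
    have h4 : p.2 = p.1 := congrArg Prod.fst heq
    rw [h4, ee_mul_self, TensorProduct.zero_tmul, TensorProduct.zero_tmul, neg_zero, add_zero]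

theorem oneForm_comm (Y : Fin h → Module.End k V) (hY : IsCocycle Y)
    (c : MvPolynomial (Fin h) k) :
    ∃ U, oneForm k h V Y * scal k h V c - scal k h V c * oneForm k h V Y =
      dd (PP k h V) (qq k h V) U := by
  have hcl : ∀ d, qq k h V * scal k h V d = PP k h V (scal k h V d) * qq k h V := by
    intro d
    rw [PP_scal, qq_scal]
  induction c using MvPolynomial.induction_on with
  | C a =>
    refine ⟨0, ?_⟩
    rw [dd_zero, show (C a : MvPolynomial (Fin h) k) = algebraMap k _ a from rfl,
      AlgHom.commutes, Algebra.commutes, sub_self]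
  | add p r hp hr =>
    obtain ⟨U, hU⟩ := hp
    obtain ⟨W, hW⟩ := hr
    refine ⟨U + W, ?_⟩
    rw [dd_add, ← hU, ← hW, map_add]
    exact comm_aux' _ _ _
  | mul_X p m hp =>
    obtain ⟨U, hU⟩ := hp
    have hm : oneForm k h V Y * scal k h V (X m) - scal k h V (X m) * oneForm k h V Y =
        dd (PP k h V) (qq k h V) (-(1 ⊗ₜ[k] Y m)) := by
      rw [dd_neg, dd, PP_tmul, map_one, scal_apply, oneForm, qq, oneForm, Finset.sum_mul,
        Finset.mul_sum, Finset.sum_mul, Finset.mul_sum, ← Finset.sum_sub_distrib,
        ← Finset.sum_sub_distrib, ← Finset.sum_neg_distrib]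
      refine Finset.sum_congr rfl (fun l _ => ?_)
      simp only [Algebra.TensorProduct.tmul_mul_tmul, mul_one, one_mul]
      rw [← TensorProduct.tmul_sub, ← TensorProduct.tmul_sub, ← TensorProduct.tmul_neg, hY l m,
        neg_sub]
    refine ⟨U * scal k h V (X m) + PP k h V (scal k h V p) * -(1 ⊗ₜ[k] Y m), ?_⟩
    rw [dd_add, ← dd_mul U _ (hcl (X m)), ← mul_dd (PP_PP k h V) (PP_qq k h V) _ _ (hcl p),
      ← hU, ← hm, map_mul]
    exact comm_aux _ _ _

theorem oneForm_mem (Y : Fin h → Module.End k V) (hY : IsCocycle Y) :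
    oneForm k h V Y ∈ ZZ (PP k h V) (qq k h V) (scal k h V) (PP_PP k h V) (PP_qq k h V) :=
  ⟨oneForm_closed Y hY, oneForm_comm Y hY⟩

end Pool.Agent.H74.GSq
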