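import Pool.Agent.H74.GSq.Dual

/-! The type of `S/I²` for a Gorenstein ideal `I`. -/

namespace Pool.Agent.H74.GSq

open MvPolynomial Pool.Agent.H6.CMT

variable {k : Type*} [Field k] {h : ℕ}

theorem gor_square (I : Ideal (MvPolynomial (Fin h) k)) (c : ℕ) (hc : irr k h ^ c ≤ I)
    (hG : cmType I = 1)
    (hchar : ((h.factorial * Module.finrank k (MvPolynomial (Fin h) k ⧸ I) : ℕ) : k) ≠ 0) :
    h ≤ cmType (I * I) := by
  classical
  by_contra hlt
  push Not at hlt
  apply hchar
  have fin : Module.Finite k (MvPolynomial (Fin h) k ⧸ I) := finite_quot I c hc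
  obtain ⟨μ, hμ1, hμ2⟩ := gor_functional I c hc hG
  have hc2 : irr k h ^ (c + c) ≤ I * I := by
    rw [pow_add]
    exact Ideal.mul_mono hc hc
  obtain ⟨ψ, hψ⟩ := dual_generated (I * I) (c + c) hc2 _ rfl
  choose g hg using fun j => exists_hom I μ hμ1 hμ2 (ψ j)
  -- the functionals given by the partial derivatives
  have hφ : ∀ i : Fin h, ∃ a : Fin (cmType (I * I)) → MvPolynomial (Fin h) k,
      ∀ f ∈ I, (Submodule.Quotient.mk (pderiv i f) : MvPolynomial (Fin h) k ⧸ I) =
        ∑ j, a j • g j f := by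
    intro i
    let χ : MvPolynomial (Fin h) k →ₗ[k] k :=
      μ ∘ₗ (I.mkQ.restrictScalars k) ∘ₗ (pderiv i : Derivation k _ _).toLinearMap
    have hχv : ∀ x, χ x = μ (Submodule.Quotient.mk (pderiv i x)) := fun x => rfl
    have hχ : (I * I).restrictScalars k ≤ LinearMap.ker χ := by
      intro u hu
      rw [LinearMap.mem_ker, hχv]
      have hu' : u ∈ I * I := hu
      have h0 : pderiv i u ∈ I := by
        induction hu' using Submodule.mul_induction_on' with
        | mem_mul_mem m hm n hn =>
          rw [Derivation.leibniz, smul_eq_mul, smul_eq_mul]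
          exact I.add_mem (I.mul_mem_right _ hm) (I.mul_mem_right _ hn)
        | add x _ y _ hx hy =>
          rw [map_add]
          exact I.add_mem (hx (by assumption)) (hy (by assumption))
      rw [(Submodule.Quotient.mk_eq_zero I).2 h0, map_zero]
    obtain ⟨a, ha⟩ := hψ (((I * I).restrictScalars k).liftQ χ hχ)
    have ha' : ∀ x : MvPolynomial (Fin h) k, μ (Submodule.Quotient.mk (pderiv i x)) =
        ∑ j, ψ j (Submodule.Quotient.mk (a j * x)) := by
      intro x
      have := ha (Submodule.Quotient.mk x)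
      rw [← hχv]
      refine Eq.trans ?_ (this.trans ?_)
      · rfl
      · refine Finset.sum_congr rfl (fun j _ => ?_)
        rw [← Submodule.Quotient.mk_smul, smul_eq_mul]
    refine ⟨a, fun f hf => ?_⟩
    rw [← sub_eq_zero]
    apply hμ2
    intro s
    rw [smul_sub, map_sub, Finset.smul_sum, map_sum]
    have h1 : μ (s • (Submodule.Quotient.mk (pderiv i f) : MvPolynomial (Fin h) k ⧸ I)) =
        μ (Submodule.Quotient.mk (pderiv i (s * f))) := by
      rw [Derivation.leibniz, Submodule.Quotient.mk_add, smul_eq_mul, smul_eq_mul,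
        (Submodule.Quotient.mk_eq_zero I).2 (I.mul_mem_right (pderiv i s) hf), add_zero,
        ← Submodule.Quotient.mk_smul, smul_eq_mul]
    rw [h1, ha', sub_eq_zero]
    refine Finset.sum_congr rfl (fun j _ => ?_)
    rw [smul_smul, (hg j f hf (s * a j)).1]
    congr 2
    ring
  choose a ha using hφ
  -- a linear section
  obtain ⟨σ, hσ⟩ := LinearMap.exists_rightInverse_of_surjective (I.mkQ.restrictScalars k)
    (by rw [LinearMap.range_eq_top]; exact Submodule.mkQ_surjective I)
  have hσ' : ∀ x : MvPolynomial (Fin h) k ⧸ I,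
      (Submodule.Quotient.mk (σ x) : MvPolynomial (Fin h) k ⧸ I) = x :=
    fun x => LinearMap.congr_fun hσ x
  have hu : ∀ (l : Fin h) (x : MvPolynomial (Fin h) k ⧸ I),
      X l * σ x - σ ((X l : MvPolynomial (Fin h) k) • x) ∈ I := by
    intro l x
    rw [← Submodule.Quotient.mk_eq_zero, Submodule.Quotient.mk_sub, hσ', ← smul_eq_mul,
      Submodule.Quotient.mk_smul, hσ', sub_self]
  let T : Fin h → (MvPolynomial (Fin h) k ⧸ I) →ₗ[k] MvPolynomial (Fin h) k := fun l =>
    LinearMap.mulLeft k (X l) ∘ₗ σ - σ ∘ₗ rho k h (MvPolynomial (Fin h) k ⧸ I) (X l)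
  have hT : ∀ l x, T l x = X l * σ x - σ ((X l : MvPolynomial (Fin h) k) • x) := fun l x => rfl
  let Y : Fin (cmType (I * I)) → Fin h → Module.End k (MvPolynomial (Fin h) k ⧸ I) :=
    fun j l => g j ∘ₗ T l
  have hYv : ∀ j l x, Y j l x = g j (T l x) := fun j l x => rfl
  let Z : Fin h → Module.End k (MvPolynomial (Fin h) k ⧸ I) := fun i =>
    (I.mkQ.restrictScalars k) ∘ₗ (pderiv i : Derivation k _ _).toLinearMap ∘ₗ σ
  have hZv : ∀ i x, Z i x = Submodule.Quotient.mk (pderiv i (σ x)) := fun i x => rfl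
  refine trace_obstruction hlt Y ?_ a Z ?_
  · intro j l m
    apply LinearMap.ext
    intro x
    have h1 : ∀ l m : Fin h, (rho k h (MvPolynomial (Fin h) k ⧸ I) (X l) * Y j m -
        Y j m * rho k h (MvPolynomial (Fin h) k ⧸ I) (X l)) x =
        g j (X l * (X m * σ x - σ ((X m : MvPolynomial (Fin h) k) • x)) -
          (X m * σ ((X l : MvPolynomial (Fin h) k) • x) -
            σ ((X m : MvPolynomial (Fin h) k) • (X l : MvPolynomial (Fin h) k) • x))) := by
      intro l m
      rw [LinearMap.sub_apply, Module.End.mul_apply, Module.End.mul_apply, rho_apply, rho_apply,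
        hYv, hYv, hT, hT, ← (hg j _ (hu m x) (X l)).2, ← map_sub]
    rw [h1, h1, smul_comm (X m : MvPolynomial (Fin h) k) (X l : MvPolynomial (Fin h) k) x]
    congr 1
    ring
  · intro i l
    apply LinearMap.ext
    intro x
    rw [LinearMap.sub_apply, LinearMap.sum_apply, LinearMap.sub_apply, Module.End.mul_apply,
      Module.End.mul_apply, rho_apply, rho_apply, hZv, hZv]
    have h1 : ∑ j, (rho k h (MvPolynomial (Fin h) k ⧸ I) (a i j) * Y j l) x =
        Submodule.Quotient.mk (pderiv i (T l x)) := by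
      rw [ha i (T l x) (hu l x)]
      rfl
    rw [h1, hT, map_sub, Derivation.leibniz, Submodule.Quotient.mk_sub, Submodule.Quotient.mk_add,
      Submodule.Quotient.mk_smul, pderiv_X, smul_eq_mul]
    by_cases hil : l = i
    · subst hil
      rw [if_pos rfl, Pi.single_eq_same, mul_one, hσ']
      change x = _
      abel
    · rw [if_neg hil, Pi.single_eq_of_ne hil, mul_zero, Submodule.Quotient.mk_zero]
      change 0 = _
      abel

end Pool.Agent.H74.GSq
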