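import Pool.Agent.H74.GSq.Gor

/-! The normal module `Hom_S(I, S/I)` of an `m`-primary ideal needs at least `h` generators. -/

namespace Pool.Agent.H74.GSq

open MvPolynomial Pool.Agent.H6.CMT

variable {k : Type*} [Field k] {h : ℕ}

theorem normal_core (I : Ideal (MvPolynomial (Fin h) k)) (c : ℕ) (hc : irr k h ^ c ≤ I)
    {r : ℕ} (hr : r < h) (g : Fin r → MvPolynomial (Fin h) k →ₗ[k] (MvPolynomial (Fin h) k ⧸ I))
    (hg : ∀ j, ∀ f ∈ I, ∀ s : MvPolynomial (Fin h) k, g j (s * f) = s • g j f)
    (a : Fin h → Fin r → MvPolynomial (Fin h) k)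
    (ha : ∀ i, ∀ f ∈ I, (Submodule.Quotient.mk (pderiv i f) : MvPolynomial (Fin h) k ⧸ I) =
        ∑ j, a i j • g j f) :
    ((h.factorial * Module.finrank k (MvPolynomial (Fin h) k ⧸ I) : ℕ) : k) = 0 := by
  classical
  have fin : Module.Finite k (MvPolynomial (Fin h) k ⧸ I) := finite_quot I c hc
  obtain ⟨σ, hσ⟩ := LinearMap.exists_rightInverse_of_surjective (I.mkQ.restrictScalars k)
    (by rw [LinearMap.range_eq_top]; exact Submodule.mkQ_surjective I)
  have hσ' : ∀ x : MvPolynomial (Fin h) k ⧸ I,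
      (Submodule.Quotient.mk (σ x) : MvPolynomial (Fin h) k ⧸ I) = x :=
    fun x => LinearMap.congr_fun hσ x
  have hu : ∀ (l : Fin h) (x : MvPolynomial (Fin h) k ⧸ I),
      X l * σ x - σ ((X l : MvPolynomial (Fin h) k) • x) ∈ I := by
    intro l x
    rw [← Submodule.Quotient.mk_eq_zero, Submodule.Quotient.mk_sub, hσ', ← smul_eq_mul,
      Submodule.Quotient.mk_smul, hσ', sub_self]
  let T : Fin h → (MvPolynomial (Fin h) k ⧸ I) →ₗ[k] MvPolynomial (Fin h) k := fun l =>
    LinearMap.mulLeft k (X l) ∘ₗ σ - σ ∘ₗ rho k h (MvPolynomial (Fin h) k ⧸ I) (X l)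
  have hT : ∀ l x, T l x = X l * σ x - σ ((X l : MvPolynomial (Fin h) k) • x) := fun l x => rfl
  let Y : Fin r → Fin h → Module.End k (MvPolynomial (Fin h) k ⧸ I) :=
    fun j l => g j ∘ₗ T l
  have hYv : ∀ j l x, Y j l x = g j (T l x) := fun j l x => rfl
  let Z : Fin h → Module.End k (MvPolynomial (Fin h) k ⧸ I) := fun i =>
    (I.mkQ.restrictScalars k) ∘ₗ (pderiv i : Derivation k _ _).toLinearMap ∘ₗ σ
  have hZv : ∀ i x, Z i x = Submodule.Quotient.mk (pderiv i (σ x)) := fun i x => rfl
  refine trace_obstruction hr Y ?_ a Z ?_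
  · intro j l m
    apply LinearMap.ext
    intro x
    have h1 : ∀ l m : Fin h, (rho k h (MvPolynomial (Fin h) k ⧸ I) (X l) * Y j m -
        Y j m * rho k h (MvPolynomial (Fin h) k ⧸ I) (X l)) x =
        g j (X l * (X m * σ x - σ ((X m : MvPolynomial (Fin h) k) • x)) -
          (X m * σ ((X l : MvPolynomial (Fin h) k) • x) -
            σ ((X m : MvPolynomial (Fin h) k) • (X l : MvPolynomial (Fin h) k) • x))) := by
      intro l m
      rw [LinearMap.sub_apply, Module.End.mul_apply, Module.End.mul_apply, rho_apply, rho_apply,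
        hYv, hYv, hT, hT, ← hg j _ (hu m x) (X l), ← map_sub]
    rw [h1, h1, smul_comm (X m : MvPolynomial (Fin h) k) (X l : MvPolynomial (Fin h) k) x]
    congr 1
    ring
  · intro i l
    apply LinearMap.ext
    intro x
    rw [LinearMap.sub_apply, LinearMap.sum_apply, LinearMap.sub_apply, Module.End.mul_apply,
      Module.End.mul_apply, rho_apply, rho_apply, hZv, hZv]
    have h1 : ∑ j, (rho k h (MvPolynomial (Fin h) k ⧸ I) (a i j) * Y j l) x =
        Submodule.Quotient.mk (pderiv i (T l x)) := by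
      rw [ha i (T l x) (hu l x)]
      rfl
    rw [h1, hT, map_sub, Derivation.leibniz, Submodule.Quotient.mk_sub, Submodule.Quotient.mk_add,
      Submodule.Quotient.mk_smul, pderiv_X, smul_eq_mul]
    by_cases hil : l = i
    · subst hil
      rw [if_pos rfl, Pi.single_eq_same, mul_one, hσ']
      change x = _
      abel
    · rw [if_neg hil, Pi.single_eq_of_ne hil, mul_zero, Submodule.Quotient.mk_zero]
      change 0 = _
      abel

/-- the map `I → S/I` given by a partial derivative -/
noncomputable def pdHom (I : Ideal (MvPolynomial (Fin h) k)) (i : Fin h) :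
    I →ₗ[MvPolynomial (Fin h) k] (MvPolynomial (Fin h) k ⧸ I) where
  toFun f := Submodule.Quotient.mk (pderiv i (f : MvPolynomial (Fin h) k))
  map_add' f g := by
    rw [← Submodule.Quotient.mk_add]
    push_cast
    rw [map_add]
  map_smul' s f := by
    rw [RingHom.id_apply, ← Submodule.Quotient.mk_smul, ← sub_eq_zero,
      ← Submodule.Quotient.mk_sub, Submodule.Quotient.mk_eq_zero]
    push_cast
    rw [smul_eq_mul, smul_eq_mul, Derivation.leibniz, smul_eq_mul, smul_eq_mul,
      add_sub_cancel_left]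
    exact I.mul_mem_right _ f.2

/-- if `n! dim (S/I)` is invertible in `k`, the module `Hom_S(I, S/I)` is not generated by fewer
than `n` elements, `n` the number of variables -/
theorem normal_generators (I : Ideal (MvPolynomial (Fin h) k)) (c : ℕ) (hc : irr k h ^ c ≤ I)
    (hchar : ((h.factorial * Module.finrank k (MvPolynomial (Fin h) k ⧸ I) : ℕ) : k) ≠ 0)
    {r : ℕ} (g : Fin r → (I →ₗ[MvPolynomial (Fin h) k] (MvPolynomial (Fin h) k ⧸ I)))
    (hg : Submodule.span (MvPolynomial (Fin h) k) (Set.range g) = ⊤) : h ≤ r := by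
  classical
  by_contra hlt
  push Not at hlt
  apply hchar
  have hex : ∀ j, ∃ G : MvPolynomial (Fin h) k →ₗ[k] (MvPolynomial (Fin h) k ⧸ I),
      ∀ (f : MvPolynomial (Fin h) k) (hf : f ∈ I), G f = g j ⟨f, hf⟩ := by
    intro j
    let g0 : (I.restrictScalars k : Submodule k (MvPolynomial (Fin h) k)) →ₗ[k]
        (MvPolynomial (Fin h) k ⧸ I) := (g j).restrictScalars k
    obtain ⟨G, hG⟩ := LinearMap.exists_extend g0
    exact ⟨G, fun f hf => LinearMap.congr_fun hG ⟨f, hf⟩⟩
  choose G hG using hex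
  have ha : ∀ i, ∃ a : Fin r → MvPolynomial (Fin h) k, ∑ j, a j • g j = pdHom I i := by
    intro i
    have : pdHom I i ∈ Submodule.span (MvPolynomial (Fin h) k) (Set.range g) := by
      rw [hg]; trivial
    exact (Submodule.mem_span_range_iff_exists_fun _).1 this
  choose a ha using ha
  refine normal_core I c hc hlt G ?_ a ?_
  · intro j f hf s
    rw [hG j _ (I.mul_mem_left s hf), hG j f hf, ← map_smul]
    rfl
  · intro i f hf
    have h1 := LinearMap.congr_fun (ha i) ⟨f, hf⟩
    rw [LinearMap.sum_apply] at h1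
    have h2 : pdHom I i ⟨f, hf⟩ = Submodule.Quotient.mk (pderiv i f) := rfl
    rw [← h2, ← h1]
    refine Finset.sum_congr rfl (fun j _ => ?_)
    rw [hG j f hf]
    rfl

end Pool.Agent.H74.GSq
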