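import Mathlib

/-! Abstract form of the alternating trace argument. -/

namespace Pool.Agent.H74.GSq

section Abstract

variable {k : Type*} [Field k] {Om : Type*} [Ring Om] [Algebra k Om]
variable (J : Om →ₐ[k] Om) (q : Om)

/-- the twisted commutator with `q` -/
def dd (U : Om) : Om := q * U - J U * q

theorem dd_zero : dd J q 0 = 0 := by simp [dd]

theorem dd_add (U V : Om) : dd J q (U + V) = dd J q U + dd J q V := by
  simp only [dd, map_add, mul_add, add_mul]; abel

theorem dd_neg (U : Om) : dd J q (-U) = -dd J q U := by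
  simp only [dd, map_neg, mul_neg, neg_mul]; abel

theorem dd_sub (U V : Om) : dd J q (U - V) = dd J q U - dd J q V := by
  rw [sub_eq_add_neg, dd_add, dd_neg, ← sub_eq_add_neg]

variable {J q}

/-- multiplication of an exact element by a closed one, on the right -/
theorem dd_mul (U w : Om) (hw : q * w = J w * q) : dd J q U * w = dd J q (U * w) := by
  simp only [dd, map_mul, sub_mul]
  rw [mul_assoc (J U) (J w) q, ← hw]
  simp only [mul_assoc]

theorem closed_J (hJJ : ∀ x, J (J x) = x) (hJq : J q = -q) (w : Om) (hw : q * w = J w * q) :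
    q * J w = w * q := by
  have h1 := congrArg J hw
  rw [map_mul, map_mul, hJJ, hJq] at h1
  simpa using h1

/-- multiplication of an exact element by a closed one, on the left -/
theorem mul_dd (hJJ : ∀ x, J (J x) = x) (hJq : J q = -q) (w U : Om) (hw : q * w = J w * q) :
    w * dd J q U = dd J q (J w * U) := by
  simp only [dd, map_mul, mul_sub, hJJ]
  rw [← mul_assoc q (J w) U, closed_J hJJ hJq w hw]
  simp only [mul_assoc]

variable {S : Type*} [CommRing S] [Algebra k S] (sc : S →ₐ[k] Om)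

/-- closed elements that commute with the scalars up to exact elements -/
def ZZ (J : Om →ₐ[k] Om) (q : Om) (sc : S →ₐ[k] Om) (hJJ : ∀ x, J (J x) = x) (hJq : J q = -q) :
    Subring Om where
  carrier := {w | q * w = J w * q ∧ ∀ c : S, ∃ U, w * sc c - sc c * w = dd J q U}
  mul_mem' := by
    rintro a b ⟨ha, ha'⟩ ⟨hb, hb'⟩
    refine ⟨?_, fun c => ?_⟩
    · rw [map_mul, ← mul_assoc, ha, mul_assoc, hb, mul_assoc]
    · obtain ⟨U, hU⟩ := ha' c
      obtain ⟨V, hV⟩ := hb' c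
      refine ⟨J a * V + U * b, ?_⟩
      rw [dd_add, ← mul_dd hJJ hJq a V ha, ← dd_mul U b hb, ← hU, ← hV]
      noncomm_ring
  one_mem' := by
    refine ⟨by simp, fun c => ⟨0, by rw [dd_zero]; simp⟩⟩
  add_mem' := by
    rintro a b ⟨ha, ha'⟩ ⟨hb, hb'⟩
    refine ⟨?_, fun c => ?_⟩
    · rw [map_add, mul_add, add_mul, ha, hb]
    · obtain ⟨U, hU⟩ := ha' c
      obtain ⟨V, hV⟩ := hb' c
      refine ⟨U + V, ?_⟩
      rw [dd_add, ← hU, ← hV]
      noncomm_ring
  zero_mem' := by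
    refine ⟨by simp, fun c => ⟨0, by rw [dd_zero]; simp⟩⟩
  neg_mem' := by
    rintro a ⟨ha, ha'⟩
    refine ⟨?_, fun c => ?_⟩
    · rw [map_neg, mul_neg, neg_mul, ha]
    · obtain ⟨U, hU⟩ := ha' c
      refine ⟨-U, ?_⟩
      rw [dd_neg, ← hU]
      noncomm_ring

/-- congruence modulo exact elements -/
def con (J : Om →ₐ[k] Om) (q : Om) (sc : S →ₐ[k] Om) (hJJ : ∀ x, J (J x) = x) (hJq : J q = -q) :
    RingCon (ZZ J q sc hJJ hJq) where
  r a b := ∃ U, (a : Om) - b = dd J q U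
  iseqv := by
    refine ⟨fun a => ⟨0, by rw [dd_zero]; simp⟩, ?_, ?_⟩
    · rintro a b ⟨U, hU⟩
      exact ⟨-U, by rw [dd_neg, ← hU]; abel⟩
    · rintro a b c ⟨U, hU⟩ ⟨V, hV⟩
      exact ⟨U + V, by rw [dd_add, ← hU, ← hV]; abel⟩
  add' := by
    rintro a b c d ⟨U, hU⟩ ⟨V, hV⟩
    exact ⟨U + V, by rw [dd_add, ← hU, ← hV]; push_cast; abel⟩
  mul' := by
    rintro a b c d ⟨U, hU⟩ ⟨V, hV⟩
    refine ⟨U * c + J b * V, ?_⟩
    rw [dd_add, ← dd_mul U c c.2.1, ← mul_dd hJJ hJq b V b.2.1, ← hU, ← hV]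
    push_cast
    noncomm_ring

theorem alt_exact (hJJ : ∀ x, J (J x) = x) (hJq : J q = -q)
    (hJc : ∀ c, J (sc c) = sc c) (hqc : ∀ c, q * sc c = sc c * q)
    {n r : ℕ} (hr : r < n) (ω : Fin r → Om) (hω : ∀ j, ω j ∈ ZZ J q sc hJJ hJq)
    (ξ : Fin n → Om) (hξ : ∀ i, ξ i ∈ ZZ J q sc hJJ hJq) (c : Fin n → Fin r → S)
    (hc : ∀ i, ∃ U, ξ i - ∑ j, sc (c i j) * ω j = dd J q U) :
    ∃ U, ∑ s : Equiv.Perm (Fin n), (Equiv.Perm.sign s) • (List.ofFn fun i => ξ (s i)).prod =
      dd J q U := by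
  classical
  have hscZ : ∀ a, sc a ∈ ZZ J q sc hJJ hJq := by
    intro a
    refine ⟨by rw [hJc, hqc], fun b => ⟨0, ?_⟩⟩
    rw [dd_zero, ← map_mul, ← map_mul, mul_comm, sub_self]
  let scZ : S →+* ZZ J q sc hJJ hJq := (sc : S →+* Om).codRestrict _ hscZ
  let κ := con J q sc hJJ hJq
  let f : S →+* κ.Quotient := κ.mk'.comp scZ
  have hcomm : ∀ (a : S) (x : κ.Quotient), f a * x = x * f a := by
    intro a x
    obtain ⟨w, rfl⟩ := κ.mk'_surjective x
    change κ.mk' (scZ a) * κ.mk' w = κ.mk' w * κ.mk' (scZ a)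
    rw [← map_mul, ← map_mul]
    apply Quotient.sound
    obtain ⟨U, hU⟩ := w.2.2 a
    refine ⟨-U, ?_⟩
    rw [dd_neg, ← hU]
    push_cast
    change sc a * (w : Om) - w * sc a = _
    abel
  let _ : Algebra S κ.Quotient := RingHom.toAlgebra' f hcomm
  let L : (Fin r → S) →ₗ[S] κ.Quotient :=
    (Pi.basisFun S (Fin r)).constr S (fun j => κ.mk' ⟨ω j, hω j⟩)
  let g := MultilinearMap.alternatization
    ((MultilinearMap.mkPiAlgebraFin S n κ.Quotient).compLinearMap (fun _ => L))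
  have hg : g = 0 := by
    refine Module.Basis.ext_alternating (Pi.basisFun S (Fin r)) (fun v hv => ?_)
    exfalso
    have := Fintype.card_le_of_injective v hv
    simp at this
    omega
  have hL : ∀ i, L (c i) = κ.mk' ⟨ξ i, hξ i⟩ := by
    intro i
    have h1 : L (c i) = ∑ j, c i j • κ.mk' ⟨ω j, hω j⟩ := by
      simp [L, Module.Basis.constr_apply_fintype]
    rw [h1]
    have h2 : ∀ j, c i j • κ.mk' ⟨ω j, hω j⟩ = κ.mk' (scZ (c i j) * ⟨ω j, hω j⟩) := by
      intro j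
      rw [Algebra.smul_def, map_mul]
      rfl
    rw [Finset.sum_congr rfl (fun j _ => h2 j), ← map_sum]
    apply Quotient.sound
    obtain ⟨U, hU⟩ := hc i
    refine ⟨-U, ?_⟩
    rw [dd_neg, ← hU]
    push_cast
    change ∑ j, sc (c i j) * ω j - ξ i = _
    abel
  have h0 : g c = 0 := by rw [hg]; rfl
  have h1 : g c = κ.mk' (∑ s : Equiv.Perm (Fin n), (Equiv.Perm.sign s) •
      (List.ofFn fun i => (⟨ξ (s i), hξ (s i)⟩ : ZZ J q sc hJJ hJq)).prod) := by
    simp only [g]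
    rw [MultilinearMap.alternatization_apply, map_sum]
    refine Finset.sum_congr rfl (fun s _ => ?_)
    rw [Units.smul_def, Units.smul_def, map_zsmul, map_list_prod]
    congr 1
    simp only [MultilinearMap.domDomCongr_apply, MultilinearMap.compLinearMap_apply,
      MultilinearMap.mkPiAlgebraFin_apply, List.map_ofFn]
    congr 2
    funext i
    exact hL _
  rw [h1] at h0
  have h2 := Quotient.exact (h0.trans (map_zero κ.mk').symm)
  obtain ⟨U, hU⟩ := h2
  refine ⟨U, ?_⟩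
  rw [← hU]
  push_cast
  rw [sub_zero]
  refine Finset.sum_congr rfl (fun s _ => ?_)
  simp only [Units.smul_def]
  push_cast
  congr 1
  rw [List.map_ofFn]
  rfl

end Abstract

end Pool.Agent.H74.GSq
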